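import Pool.Agent.N522.SB.Defs

/-!
# MP_872606_gt: symplectic BMY with an error term, and reductions
-/

open Pool.Agent.N522.SB

/-- If `c₁² ≤ 3 c₂ + C` for one constant `C` and all closed symplectic four-manifolds with `b⁺ > 1`,
then `c₁² ≤ 3 c₂` for all those that contain a symplectic torus of square zero or have coverings of
arbitrarily large degree; Q1 is equivalent to `e ≥ 0` for minimal manifolds of Kodaira dimension one
together with the inequality for minimal manifolds of Kodaira dimension two; the inequality passes to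
symplectic sums along surfaces of positive genus, and to coverings and quotients. -/
theorem Pool.Agent.Results.MP_872606_gt.ApproximateImpliesExact.result :
    ∀ T : Theory, Facts T →
      (∀ C : ℤ, (∀ X : T.Man, Bmy C X) → ∀ X : T.Man,
        (T.HasTorus X ∨ ∀ N : ℕ, ∃ n, N ≤ n ∧ ∃ Y, T.Cover n Y X) → Bmy 0 X) ∧
      ((∀ X : T.Man, Bmy 0 X) ↔
        (∀ X : T.Man, T.Minimal X → T.KodOne X → 0 ≤ T.e X) ∧
          ∀ X : T.Man, T.Minimal X → T.KodTwo X → Bmy 0 X) ∧
      (∀ g : ℕ, 0 < g → ∀ X Y Z : T.Man, T.Sum g X Y Z → Bmy 0 X → Bmy 0 Y → Bmy 0 Z) ∧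
      ∀ n : ℕ, 0 < n → ∀ X Y : T.Man, T.Cover n Y X → (Bmy 0 X ↔ Bmy 0 Y) :=
  fun _ F => ⟨exact_of_approx F, q1_iff F, bmy_sum F, bmy_cover F⟩
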